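import Mathlib

/-!
# Minkowski: the orders of the finite order automorphisms of a lattice of rank `n` are bounded
-/

namespace MldQ

open Matrix

/-- `(1 + C)^q = 1 + q C + C^2 R` -/
theorem one_add_pow {n : ℕ} (C : Matrix (Fin n) (Fin n) ℤ) (q : ℕ) :
    ∃ R : Matrix (Fin n) (Fin n) ℤ, (1 + C) ^ q = 1 + (q : ℤ) • C + C * C * R := by
  induction q with
  | zero => exact ⟨0, by simp⟩
  | succ q ih =>
    obtain ⟨R, hR⟩ := ih
    refine ⟨(q : ℤ) • 1 + R * (1 + C), ?_⟩
    rw [pow_succ, hR]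
    push_cast
    simp only [add_mul, mul_add, mul_one, one_mul, add_smul, one_smul, smul_mul_assoc,
      mul_smul_comm, Matrix.mul_assoc]
    abel

theorem smul_cancel {n : ℕ} {a : ℤ} (ha : a ≠ 0) {X Y : Matrix (Fin n) (Fin n) ℤ}
    (h : a • X = a • Y) : X = Y := by
  ext i j
  have h1 := congrFun (congrFun h i) j
  simp only [Matrix.smul_apply, smul_eq_mul] at h1
  exact mul_left_cancel₀ ha h1

theorem dvd_matrix {n : ℕ} (X : Matrix (Fin n) (Fin n) ℤ) (a : ℤ) (h : ∀ i j, a ∣ X i j) :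
    ∃ Y : Matrix (Fin n) (Fin n) ℤ, X = a • Y := by
  choose y hy using h
  exact ⟨Matrix.of fun i j => y i j, by ext i j; simp [hy i j]⟩

theorem step {n : ℕ} {q : ℕ} (hq : q.Prime) (C : Matrix (Fin n) (Fin n) ℤ)
    (h : (1 + C) ^ q = 1) (e : ℕ) (D : Matrix (Fin n) (Fin n) ℤ)
    (hD : C = ((3 : ℤ) ^ (e + 1)) • D) :
    ∃ D' : Matrix (Fin n) (Fin n) ℤ, C = ((3 : ℤ) ^ (e + 2)) • D' := by
  have key : ∃ D' : Matrix (Fin n) (Fin n) ℤ, D = (3 : ℤ) • D' := by
    have h3 : ((3 : ℤ) ^ (e + 1)) ≠ 0 := by positivity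
    by_cases hq3 : q = 3
    · subst hq3
      have h1 : (3 : ℤ) • C = -((3 : ℤ) • (C * C) + C * C * C) := by
        have h2 : (1 + C) ^ 3 = 1 + ((3 : ℤ) • C + (3 : ℤ) • (C * C) + C * C * C) := by
          simp only [pow_succ, pow_zero, one_mul, add_mul, mul_add, mul_one, Matrix.mul_assoc]
          rw [show (3 : ℤ) = 1 + 1 + 1 by norm_num]
          simp only [add_smul, one_smul]
          abel
        rw [h2] at h
        have h4 : (3 : ℤ) • C + (3 : ℤ) • (C * C) + C * C * C = 0 := by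
          have := congrArg (fun X => X - 1) h
          simpa using this
        rw [eq_neg_iff_add_eq_zero, ← add_assoc]
        exact h4
      rw [hD] at h1
      have h5 : ((3 : ℤ) ^ (e + 1)) • ((3 : ℤ) • D) = ((3 : ℤ) ^ (e + 1)) •
          ((9 : ℤ) • (-(((3 : ℤ) ^ e) • (D * D)) - ((3 : ℤ) ^ (2 * e)) • (D * D * D))) := by
        have e1 : ((3 : ℤ) ^ (e + 1)) • ((3 : ℤ) • D) = (3 : ℤ) • (((3 : ℤ) ^ (e + 1)) • D) :=
          smul_comm _ _ _
        rw [e1, h1]
        simp only [smul_mul_assoc, mul_smul_comm, smul_smul, smul_sub, smul_neg]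
        rw [neg_add, sub_eq_add_neg]
        congr 2
        · congr 1
          ring
        · congr 1
          ring
      have h6 := smul_cancel h3 h5
      have h7 : D = (3 : ℤ) • (-(((3 : ℤ) ^ e) • (D * D)) - ((3 : ℤ) ^ (2 * e)) • (D * D * D)) := by
        refine smul_cancel (a := 3) (by norm_num) ?_
        rw [h6, smul_smul]
        norm_num
      exact ⟨_, h7⟩
    · obtain ⟨R, hR⟩ := one_add_pow C q
      have h1 : (q : ℤ) • C = -(C * C * R) := by
        rw [hR] at h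
        have h4 : (q : ℤ) • C + C * C * R = 0 := by
          have := congrArg (fun X => X - 1) h
          simpa [add_assoc] using this
        rw [eq_neg_iff_add_eq_zero]
        exact h4
      rw [hD] at h1
      have h5 : ((3 : ℤ) ^ (e + 1)) • ((q : ℤ) • D) = ((3 : ℤ) ^ (e + 1)) •
          ((3 : ℤ) • (-(((3 : ℤ) ^ e) • (D * D * R)))) := by
        have e1 : ((3 : ℤ) ^ (e + 1)) • ((q : ℤ) • D) = (q : ℤ) • (((3 : ℤ) ^ (e + 1)) • D) :=
          smul_comm _ _ _
        rw [e1, h1]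
        simp only [smul_mul_assoc, mul_smul_comm, smul_smul, smul_neg]
        congr 2
        ring
      have h6 := smul_cancel h3 h5
      apply dvd_matrix
      intro i j
      have h7 := congrFun (congrFun h6 i) j
      simp only [Matrix.smul_apply, smul_eq_mul] at h7
      have h8 : (3 : ℤ) ∣ (q : ℤ) * D i j := ⟨_, h7⟩
      have h9 : IsCoprime (3 : ℤ) (q : ℤ) := by
        have : Nat.Coprime 3 q := (Nat.coprime_primes (by norm_num) hq).2 (fun h => hq3 h.symm)
        exact_mod_cast Nat.isCoprime_iff_coprime.2 this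
      exact h9.dvd_of_dvd_mul_left h8
  obtain ⟨D', hD'⟩ := key
  refine ⟨D', ?_⟩
  rw [hD, hD', smul_smul, ← pow_succ]

theorem prime_case {n : ℕ} {q : ℕ} (hq : q.Prime) (B : Matrix (Fin n) (Fin n) ℤ)
    (h : B ^ q = 1) (D : Matrix (Fin n) (Fin n) ℤ) (hD : B = 1 + (3 : ℤ) • D) : B = 1 := by
  set C : Matrix (Fin n) (Fin n) ℤ := (3 : ℤ) • D with hC
  rw [hD] at h
  have h1 : ∀ e : ℕ, ∃ D' : Matrix (Fin n) (Fin n) ℤ, C = ((3 : ℤ) ^ (e + 1)) • D' := by
    intro e
    induction e with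
    | zero => exact ⟨D, by rw [hC]; norm_num⟩
    | succ e ih =>
      obtain ⟨D', hD'⟩ := ih
      exact step hq C h e D' hD'
  have h2 : C = 0 := by
    ext i j
    by_contra hne
    have h3 : ∀ e : ℕ, (3 : ℤ) ^ (e + 1) ∣ C i j := by
      intro e
      obtain ⟨D', hD'⟩ := h1 e
      rw [hD']
      exact ⟨D' i j, by simp⟩
    have h4 := Int.natAbs_dvd_natAbs.2 (h3 (C i j).natAbs)
    have h5 : 0 < (C i j).natAbs := Int.natAbs_pos.2 hne
    have h6 := Nat.le_of_dvd h5 h4
    rw [Int.natAbs_pow] at h6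
    have h7 : (C i j).natAbs + 1 < 3 ^ ((C i j).natAbs + 1) := Nat.lt_pow_self (by norm_num)
    have h8 : (Int.natAbs 3) = 3 := rfl
    rw [h8] at h6
    omega
  rw [hD, h2, add_zero]

theorem torsion_free {n : ℕ} (k : ℕ) (hk : 0 < k) :
    ∀ (B D : Matrix (Fin n) (Fin n) ℤ), B ^ k = 1 → B = 1 + (3 : ℤ) • D → B = 1 := by
  induction k using Nat.strong_induction_on with
  | _ k ih =>
    intro B D h hD
    rcases Nat.lt_or_ge 1 k with h1 | h1
    · obtain ⟨q, hq, hqk⟩ := Nat.exists_prime_and_dvd (ne_of_gt h1)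
      obtain ⟨k', rfl⟩ := hqk
      have hk' : 0 < k' := Nat.pos_of_mul_pos_left hk
      have hlt : k' < q * k' := by
        have := hq.two_le
        nlinarith
      have h2 : ∃ D' : Matrix (Fin n) (Fin n) ℤ, B ^ q = 1 + (3 : ℤ) • D' := by
        obtain ⟨R, hR⟩ := one_add_pow ((3 : ℤ) • D) q
        refine ⟨(q : ℤ) • D + (3 : ℤ) • (D * D * R), ?_⟩
        rw [hD, hR, smul_add, add_assoc]
        congr 2
        · exact smul_comm _ _ _
        · simp only [smul_mul_assoc, mul_smul_comm, smul_smul]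
      obtain ⟨D', hD'⟩ := h2
      have h3 : (B ^ q) ^ k' = 1 := by rw [← pow_mul]; exact h
      have h4 := ih k' hlt hk' _ D' h3 hD'
      exact prime_case hq B h4 D hD
    · have h2 : k = 1 := by omega
      subst h2
      rwa [pow_one] at h

/-- the exponent -/
noncomputable def mexp (n : ℕ) : ℕ := Nat.card (GL (Fin n) (ZMod 3))

theorem mexp_pos (n : ℕ) : 0 < mexp n := by
  have : Finite (GL (Fin n) (ZMod 3)) := inferInstance
  exact Nat.card_pos

theorem matrix_pow {n : ℕ} (A : Matrix (Fin n) (Fin n) ℤ) (k : ℕ) (hk : 0 < k) (h : A ^ k = 1) :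
    A ^ mexp n = 1 := by
  -- reduction modulo 3
  let f : Matrix (Fin n) (Fin n) ℤ →+* Matrix (Fin n) (Fin n) (ZMod 3) :=
    (Int.castRingHom (ZMod 3)).mapMatrix
  have h1 : f A ^ k = 1 := by rw [← map_pow, h, map_one]
  have hu : IsUnit (f A) := IsUnit.of_pow_eq_one h1 hk.ne'
  obtain ⟨u, hu⟩ := hu
  have h2 : u ^ mexp n = 1 := pow_card_eq_one'
  have h3 : f (A ^ mexp n) = 1 := by
    rw [map_pow, ← hu, ← Units.val_pow_eq_pow_val, h2, Units.val_one]
  have h4 : ∃ D : Matrix (Fin n) (Fin n) ℤ, A ^ mexp n - 1 = (3 : ℤ) • D := by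
    apply dvd_matrix
    intro i j
    have h5 : f (A ^ mexp n - 1) = 0 := by rw [map_sub, h3, map_one, sub_self]
    have h6 := congrFun (congrFun h5 i) j
    have h7 : (((A ^ mexp n - 1) i j : ℤ) : ZMod 3) = 0 := h6
    exact_mod_cast (ZMod.intCast_zmod_eq_zero_iff_dvd _ 3).1 h7
  obtain ⟨D, hD⟩ := h4
  refine torsion_free k hk _ D ?_ (by rw [← hD]; abel)
  rw [← pow_mul, mul_comm, pow_mul, h, one_pow]

/-- Minkowski's theorem for automorphisms of a lattice of `ℝ^n`. -/
theorem lattice_pow {n : ℕ} (N : AddSubgroup (Fin n → ℝ)) (hd : DiscreteTopology N)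
    (hspan : Submodule.span ℝ (N : Set (Fin n → ℝ)) = ⊤)
    (φ : (Fin n → ℝ) →ₗ[ℝ] (Fin n → ℝ)) (hφ : ∀ v ∈ N, φ v ∈ N) (k : ℕ) (hk : 0 < k)
    (h : φ ^ k = 1) : φ ^ mexp n = 1 := by
  let L : Submodule ℤ (Fin n → ℝ) := AddSubgroup.toIntSubmodule N
  have hL : DiscreteTopology L := hd
  have hZ : IsZLattice ℝ L := ⟨hspan⟩
  have hfree : Module.Free ℤ L := ZLattice.module_free ℝ L
  have hfin : Module.Finite ℤ L := ZLattice.module_finite ℝ L
  have hrank : Module.finrank ℤ L = n := by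
    rw [ZLattice.rank ℝ L, Module.finrank_fin_fun]
  let b : Module.Basis (Fin n) ℤ L := (Module.finBasis ℤ L).reindex (finCongr hrank)
  let ψ : L →ₗ[ℤ] L :=
    { toFun := fun x => ⟨φ x.1, hφ _ x.2⟩
      map_add' := fun x y => Subtype.ext (map_add φ _ _)
      map_smul' := fun c x => Subtype.ext (by
        show φ (c • (x : Fin n → ℝ)) = c • φ x
        exact map_zsmul φ c _) }
  have hψ : ∀ (m : ℕ) (x : L), ((ψ ^ m) x : Fin n → ℝ) = (φ ^ m) x := by
    intro m
    induction m with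
    | zero => intro x; rfl
    | succ m ih =>
      intro x
      rw [pow_succ, pow_succ, Module.End.mul_apply, Module.End.mul_apply, ih]
      rfl
  have hψk : ψ ^ k = 1 := by
    ext x : 1
    apply Subtype.ext
    rw [hψ, h]
    rfl
  let e := LinearMap.toMatrixAlgEquiv b
  have h1 : (e ψ) ^ k = 1 := by rw [← map_pow, hψk, map_one]
  have h2 := matrix_pow (e ψ) k hk h1
  rw [← map_pow, ← map_one e] at h2
  have h3 : ψ ^ mexp n = 1 := e.injective h2
  have h4 : ∀ x ∈ (N : Set (Fin n → ℝ)), (φ ^ mexp n) x = (1 : Module.End ℝ (Fin n → ℝ)) x := by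
    intro x hx
    have h5 := hψ (mexp n) ⟨x, hx⟩
    rw [h3] at h5
    exact h5.symm
  exact LinearMap.ext_on hspan h4

end MldQ
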