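import Pool.Agent.MldQ.Defs
import Pool.Agent.MldQ.Mink

/-!
# Averages and shifts
-/

namespace MldQ

open MldGap MldAcc Finset

variable {n : ℕ}

/-- the average over the powers of `φ` -/
noncomputable def avg (o : ℕ) (φ : (Fin n → ℝ) →ₗ[ℝ] (Fin n → ℝ)) :
    (Fin n → ℝ) →ₗ[ℝ] (Fin n → ℝ) := (o : ℝ)⁻¹ • ∑ j ∈ range o, φ ^ j

theorem avg_apply (o : ℕ) (φ : (Fin n → ℝ) →ₗ[ℝ] (Fin n → ℝ)) (x : Fin n → ℝ) :
    avg o φ x = (o : ℝ)⁻¹ • ∑ j ∈ range o, (φ ^ j) x := by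
  unfold avg
  rw [LinearMap.smul_apply, LinearMap.sum_apply]

theorem smul_avg {o : ℕ} (ho : 0 < o) (φ : (Fin n → ℝ) →ₗ[ℝ] (Fin n → ℝ)) (x : Fin n → ℝ) :
    (o : ℝ) • avg o φ x = ∑ j ∈ range o, (φ ^ j) x := by
  rw [avg_apply, smul_smul, mul_inv_cancel₀ (by exact_mod_cast ho.ne'), one_smul]

theorem pow_fix {φ : (Fin n → ℝ) →ₗ[ℝ] (Fin n → ℝ)} {x : Fin n → ℝ} (h : φ x = x) (j : ℕ) :
    (φ ^ j) x = x := by
  induction j with
  | zero => rfl
  | succ j ih => rw [pow_succ, Module.End.mul_apply, h, ih]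

theorem avg_fix {o : ℕ} (ho : 0 < o) {φ : (Fin n → ℝ) →ₗ[ℝ] (Fin n → ℝ)} {x : Fin n → ℝ}
    (h : φ x = x) : avg o φ x = x := by
  rw [avg_apply, sum_congr rfl (fun j _ => pow_fix h j), sum_const, card_range,
    ← Nat.cast_smul_eq_nsmul ℝ, smul_smul, inv_mul_cancel₀ (by exact_mod_cast ho.ne'), one_smul]

/-- the sum over a full period is fixed -/
theorem sum_fix {o : ℕ} {φ : (Fin n → ℝ) →ₗ[ℝ] (Fin n → ℝ)} (hφ : φ ^ o = 1)
    (x : Fin n → ℝ) : φ (∑ j ∈ range o, (φ ^ j) x) = ∑ j ∈ range o, (φ ^ j) x := by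
  rw [map_sum]
  have h1 : ∀ j, φ ((φ ^ j) x) = (φ ^ (j + 1)) x := by
    intro j
    rw [pow_succ', Module.End.mul_apply]
  simp only [h1]
  have h2 := Finset.sum_range_succ' (fun j => (φ ^ j) x) o
  have h3 := Finset.sum_range_succ (fun j => (φ ^ j) x) o
  rw [h3, hφ, pow_zero] at h2
  exact (add_right_cancel h2).symm

theorem avg_mem_fix {o : ℕ} {φ : (Fin n → ℝ) →ₗ[ℝ] (Fin n → ℝ)} (hφ : φ ^ o = 1)
    (x : Fin n → ℝ) : φ (avg o φ x) = avg o φ x := by
  rw [avg_apply, map_smul, sum_fix hφ]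

theorem trans_zero (g : Aff n) : trans g 0 = 0 := by simp [trans]

theorem trans_add (g : Aff n) (k m : ℕ) : trans g (k + m) = trans g k + (g.1 ^ k) (trans g m) := by
  unfold trans
  rw [sum_range_add, map_sum]
  congr 1
  refine sum_congr rfl fun j _ => ?_
  rw [pow_add, Module.End.mul_apply]

theorem trans_mul {g : Aff n} {k : ℕ} (h : g.1 ^ k = 1) (m : ℕ) :
    trans g (k * m) = (m : ℝ) • trans g k := by
  induction m with
  | zero => simp [trans_zero]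
  | succ m ih =>
    rw [Nat.mul_succ, trans_add, ih, pow_mul, h, one_pow, Module.End.one_apply]
    push_cast
    rw [add_smul, one_smul]

theorem IsShift.eq {g : Aff n} {u : Fin n → ℝ} (hu : IsShift g u) {o : ℕ} (hg : g.1 ^ o = 1) :
    (o : ℝ) • u = trans g o := by
  obtain ⟨k, hk, hgk, hku⟩ := hu
  have h1 := trans_mul hgk o
  have h2 := trans_mul hg k
  rw [mul_comm o k] at h2
  rw [h1, ← hku] at h2
  have h3 : (k : ℝ) ≠ 0 := by exact_mod_cast hk.ne'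
  rw [smul_comm] at h2
  exact smul_right_injective _ h3 h2

theorem IsShift.fix {g : Aff n} {u : Fin n → ℝ} (hu : IsShift g u) : g.1 u = u := by
  obtain ⟨k, hk, hgk, hku⟩ := hu
  have h1 := sum_fix hgk g.2
  have h2 : g.1 ((k : ℝ) • u) = (k : ℝ) • u := by
    rw [hku]
    exact h1
  rw [map_smul] at h2
  have h3 : (k : ℝ) ≠ 0 := by exact_mod_cast hk.ne'
  exact smul_right_injective _ h3 h2

/-- the shifts of the powers `g^(1 + m o)`, composed with a lattice translation -/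
theorem shift_pow {g : Aff n} {u : Fin n → ℝ} (hu : IsShift g u) {o : ℕ} (ho : 0 < o)
    (hg : g.1 ^ o = 1) (m : ℕ) (v : Fin n → ℝ) :
    g.1 ^ (1 + m * o) = g.1 ∧
      IsShift ((g.1 ^ (1 + m * o), trans g (1 + m * o) + v) : Aff n)
        (((1 + m * o : ℕ) : ℝ) • u + avg o g.1 v) := by
  have h1 : g.1 ^ (1 + m * o) = g.1 := by
    rw [pow_add, pow_one, mul_comm m o, pow_mul, hg, one_pow, mul_one]
  refine ⟨h1, o, ho, ?_, ?_⟩
  · show (g.1 ^ (1 + m * o)) ^ o = 1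
    rw [h1, hg]
  · show (o : ℝ) • (((1 + m * o : ℕ) : ℝ) • u + avg o g.1 v) =
      ∑ j ∈ range o, ((g.1 ^ (1 + m * o)) ^ j) (trans g (1 + m * o) + v)
    rw [h1, smul_add, smul_avg ho]
    simp only [map_add, sum_add_distrib]
    congr 1
    have h2 : trans g (1 + m * o) = g.2 + (m : ℝ) • (o : ℝ) • u := by
      rw [trans_add, mul_comm m o, trans_mul hg, ← hu.eq hg, pow_one, map_smul, map_smul, hu.fix]
      congr 1
      simp [trans]
    rw [h2]
    simp only [map_add, sum_add_distrib]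
    have h3 : ∑ j ∈ range o, (g.1 ^ j) g.2 = (o : ℝ) • u := (hu.eq hg).symm
    have h4 : ∀ j, (g.1 ^ j) ((m : ℝ) • (o : ℝ) • u) = (m : ℝ) • (o : ℝ) • u := by
      intro j
      rw [map_smul, map_smul, pow_fix hu.fix]
    rw [h3, sum_congr rfl (fun j _ => h4 j), sum_const, card_range, ← Nat.cast_smul_eq_nsmul ℝ]
    push_cast
    simp only [smul_smul, ← add_smul]
    congr 1
    ring

end MldQ
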