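import Pool.Agent.MldAcc.Core

/-!
# Recurrence for cosets, and the core of the ascending chain condition for quotients
-/

namespace MldQ

open Filter Topology Finset MldAcc

variable {d : ℕ}

/-- the subgroup of `ℝ^(d+1)` which encodes the cosets `j z + L` over `j / o` -/
def cosetGrp (o : ℕ) (L : AddSubgroup (Fin d → ℝ)) (z : Fin d → ℝ) :
    AddSubgroup (Fin (d + 1) → ℝ) where
  carrier := {v | ∃ j : ℤ, (o : ℝ) * v 0 = j ∧ Fin.tail v - (j : ℝ) • z ∈ L}
  add_mem' := by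
    rintro v w ⟨j, hj, hj2⟩ ⟨k, hk, hk2⟩
    refine ⟨j + k, ?_, ?_⟩
    · rw [Pi.add_apply, mul_add, hj, hk]
      push_cast
      ring
    · have : Fin.tail (v + w) - ((j + k : ℤ) : ℝ) • z =
          (Fin.tail v - (j : ℝ) • z) + (Fin.tail w - (k : ℝ) • z) := by
        funext i
        simp only [Fin.tail, Pi.add_apply, Pi.sub_apply, Pi.smul_apply, smul_eq_mul]
        push_cast
        ring
      rw [this]
      exact L.add_mem hj2 hk2
  zero_mem' := by
    refine ⟨0, by simp, ?_⟩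
    have : Fin.tail (0 : Fin (d + 1) → ℝ) - ((0 : ℤ) : ℝ) • z = 0 := by
      funext i
      simp [Fin.tail]
    rw [this]
    exact L.zero_mem
  neg_mem' := by
    rintro v ⟨j, hj, hj2⟩
    refine ⟨-j, ?_, ?_⟩
    · rw [Pi.neg_apply, mul_neg, hj]
      push_cast
      ring
    · have : Fin.tail (-v) - ((-j : ℤ) : ℝ) • z = -(Fin.tail v - (j : ℝ) • z) := by
        funext i
        simp only [Fin.tail, Pi.neg_apply, Pi.sub_apply, Pi.smul_apply, smul_eq_mul]
        push_cast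
        ring
      rw [this]
      exact L.neg_mem hj2

theorem mem_cosetGrp {o : ℕ} {L : AddSubgroup (Fin d → ℝ)} {z : Fin d → ℝ}
    {v : Fin (d + 1) → ℝ} : v ∈ cosetGrp o L z ↔
      ∃ j : ℤ, (o : ℝ) * v 0 = j ∧ Fin.tail v - (j : ℝ) • z ∈ L := Iff.rfl

theorem single_mem {o : ℕ} {L : AddSubgroup (Fin d → ℝ)} {z : Fin d → ℝ}
    (hL : ∀ i, Pi.single i 1 ∈ L) (hz : (o : ℝ) • z ∈ L) (i : Fin (d + 1)) :
    Pi.single i 1 ∈ cosetGrp o L z := by
  refine Fin.cases ?_ (fun i => ?_) i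
  · refine ⟨o, by simp, ?_⟩
    have : Fin.tail (Pi.single 0 1 : Fin (d + 1) → ℝ) - ((o : ℤ) : ℝ) • z = -((o : ℝ) • z) := by
      funext l
      simp [Fin.tail]
    rw [this]
    exact L.neg_mem hz
  · refine ⟨0, ?_, ?_⟩
    · simp
    · have : Fin.tail (Pi.single i.succ 1 : Fin (d + 1) → ℝ) - ((0 : ℤ) : ℝ) • z =
          Pi.single i 1 := by
        funext l
        simp only [Fin.tail, Int.cast_zero, zero_smul, sub_zero]
        by_cases h : l = i
        · subst h; simp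
        · rw [Pi.single_eq_of_ne h, Pi.single_eq_of_ne]
          intro h2
          exact h (Fin.succ_injective _ h2)
      rw [this]
      exact hL i

/-- Most of the cosets `z k + L k` consist of limits of points of the cosets `z i + L i`, if
`o z k ∈ L k` for a fixed `o`. -/
theorem recurD (U : Ultrafilter ℕ) {o : ℕ} (ho : 0 < o) (L : ℕ → AddSubgroup (Fin d → ℝ))
    (z : ℕ → Fin d → ℝ) (hL : ∀ k i, Pi.single i 1 ∈ L k) (hz : ∀ k, (o : ℝ) • z k ∈ L k) :
    ∀ᶠ k in (U : Filter ℕ), ∀ x, x - z k ∈ L k → ∀ ε : ℝ, 0 < ε →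
      ∀ᶠ i in (U : Filter ℕ), ∃ y, y - z i ∈ L i ∧ ‖x - y‖ < ε := by
  have h1 := recur U (fun k => cosetGrp o (L k) (z k)) (fun k i => single_mem (hL k) (hz k) i)
  filter_upwards [h1] with k hk
  intro x hx ε hε
  have ho' : (0 : ℝ) < o := by exact_mod_cast ho
  have hmem : (Fin.cons (1 / (o : ℝ)) x : Fin (d + 1) → ℝ) ∈ cosetGrp o (L k) (z k) := by
    refine ⟨1, ?_, ?_⟩
    · rw [Fin.cons_zero]
      push_cast
      field_simp
    · rw [Fin.tail_cons]
      push_cast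
      rw [one_smul]
      exact hx
  have hε' : 0 < min ε (1 / (2 * (o : ℝ))) := lt_min hε (by positivity)
  filter_upwards [hk _ hmem _ hε'] with i hi
  obtain ⟨v, ⟨j, hj, hj2⟩, hv⟩ := hi
  have h2 : ∀ l, |(Fin.cons (1 / (o : ℝ)) x : Fin (d + 1) → ℝ) l - v l| <
      min ε (1 / (2 * (o : ℝ))) := by
    intro l
    exact lt_of_le_of_lt (norm_le_pi_norm ((Fin.cons (1 / (o : ℝ)) x : Fin (d + 1) → ℝ) - v) l) hv
  have h3 : j = 1 := by
    have h4 := lt_of_lt_of_le (h2 0) (min_le_right _ _)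
    rw [Fin.cons_zero] at h4
    have h5 : |1 - (j : ℝ)| < 1 / 2 := by
      have h6 : 1 - (j : ℝ) = o * (1 / (o : ℝ) - v 0) := by
        rw [mul_sub, hj]
        field_simp
      rw [h6, abs_mul, abs_of_pos ho']
      have h7 := mul_lt_mul_of_pos_left h4 ho'
      have h8 : (o : ℝ) * (1 / (2 * (o : ℝ))) = 1 / 2 := by field_simp
      rwa [h8] at h7
    have h6 : |((1 - j : ℤ) : ℝ)| < 1 := by
      push_cast
      linarith
    have h7 : |1 - j| < 1 := by exact_mod_cast h6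
    have h8 := Int.abs_lt_one_iff.1 h7
    omega
  refine ⟨Fin.tail v, ?_, ?_⟩
  · rw [h3] at hj2
    push_cast at hj2
    rwa [one_smul] at hj2
  · rw [pi_norm_lt_iff hε]
    intro l
    have h4 := lt_of_lt_of_le (h2 l.succ) (min_le_left _ _)
    rw [Fin.cons_succ] at h4
    exact h4

/-- There is no infinite ascending sequence of infima of log discrepancy functions over recurrent
sequences of sets. -/
theorem coreD {d : ℕ} {ι : Type} [Fintype ι] {S S' : Set ℝ} (hS : S.IsWF) (hS' : S'.IsWF)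
    (D : ℕ → Set (Fin d → ℝ)) (b : ℕ → Fin d → ℝ) (r : ℕ → ι → ℝ)
    (A : ℕ → ι → Set (Fin d → ℕ)) (w : ℕ → Fin d → ℝ) (μ c : ℕ → ℝ)
    (hD : ∀ᶠ k in (Filter.hyperfilter ℕ : Filter ℕ), ∀ x ∈ D k, ∀ ε : ℝ, 0 < ε →
      ∀ᶠ i in (Filter.hyperfilter ℕ : Filter ℕ), ∃ y ∈ D i, ‖x - y‖ < ε)
    (hb : ∀ k i, b k i ∈ S) (hb1 : ∀ k i, b k i ≤ 1)
    (hr0 : ∀ k j, 0 ≤ r k j) (hr : ∀ k j, r k j ∈ S')
    (hA : ∀ k j, (A k j).Nonempty)
    (hw : ∀ k, w k ∈ D k) (hw0 : ∀ k i, 0 < w k i)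
    (hwc : ∀ k, F (b k) (r k) (A k) (w k) < c k)
    (hμ : ∀ k, ∀ y ∈ D k, (∀ i, 0 < y i) → μ k ≤ F (b k) (r k) (A k) y)
    (hc : ∀ k i, k < i → c k ≤ μ i) : False := by
  set U : Ultrafilter ℕ := Filter.hyperfilter ℕ with hU
  have hUtop : (U : Filter ℕ) ≤ atTop := Nat.hyperfilter_le_atTop
  have h2 : ∀ᶠ k in (U : Filter ℕ), ∀ᶠ i in (U : Filter ℕ), ∀ l, b k l ≤ b i l := by
    have : ∀ l, ∀ᶠ k in (U : Filter ℕ), ∀ᶠ i in (U : Filter ℕ), b k l ≤ b i l :=
      fun l => wf_ultra U hS (fun k => b k l) (fun k => hb k l)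
    filter_upwards [Filter.eventually_all.2 this] with k hk
    exact Filter.eventually_all.2 hk
  have hrr : ∀ᶠ k in (U : Filter ℕ), ∀ᶠ i in (U : Filter ℕ), ∀ l, r k l ≤ r i l := by
    have : ∀ l, ∀ᶠ k in (U : Filter ℕ), ∀ᶠ i in (U : Filter ℕ), r k l ≤ r i l :=
      fun l => wf_ultra U hS' (fun k => r k l) (fun k => hr k l)
    filter_upwards [Filter.eventually_all.2 this] with k hk
    exact Filter.eventually_all.2 hk
  have h4 := Filter.eventually_all.2 fun j => ideal_ultra U (fun k => A k j) (fun k => hA k j)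
  obtain ⟨k, hk1, hk2, hk3, hk4⟩ := (hD.and (h2.and (hrr.and h4))).exists
  -- the size of the neighbourhood
  obtain ⟨m, hm, hml⟩ : ∃ m : ℝ, 0 < m ∧ ∀ l, m ≤ w k l := by
    rcases isEmpty_or_nonempty (Fin d) with h | h
    · exact ⟨1, one_pos, fun l => h.elim l⟩
    · obtain ⟨l0, hl0⟩ := Finite.exists_min (w k)
      exact ⟨w k l0, hw0 k l0, hl0⟩
  have hwn : ∀ l, 0 ≤ w k l := fun l => (hw0 k l).le
  set P : ℝ := ∑ l, (1 - b k l) * w k l with hP
  set R : ℝ := ∑ j, r k j * ordA (A k j) (w k) with hR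
  have hP0 : 0 ≤ P := sum_nonneg fun l _ => mul_nonneg (by linarith [hb1 k l]) (hwn l)
  have hR0 : 0 ≤ R := sum_nonneg fun j _ => mul_nonneg (hr0 k j) (ordA_nonneg (hA k j) hwn)
  have hgap : P - R < c k := hwc k
  obtain ⟨δ, hδ0, hδ1, hδ⟩ : ∃ δ : ℝ, 0 < δ ∧ δ ≤ 1 / 2 ∧ P - R + δ * (P + R) < c k := by
    refine ⟨min (1 / 2) ((c k - (P - R)) / (2 * (P + R + 1))), ?_, min_le_left _ _, ?_⟩
    · apply lt_min (by norm_num)
      apply div_pos (by linarith) (by positivity)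
    · have e1 : min (1 / 2) ((c k - (P - R)) / (2 * (P + R + 1))) * (P + R) ≤
          (c k - (P - R)) / (2 * (P + R + 1)) * (P + R) :=
        mul_le_mul_of_nonneg_right (min_le_right _ _) (by linarith)
      have e2 : (c k - (P - R)) / (2 * (P + R + 1)) * (P + R) < c k - (P - R) := by
        rw [div_mul_eq_mul_div, div_lt_iff₀ (by positivity)]
        nlinarith
      linarith
  have hε : 0 < δ * m := mul_pos hδ0 hm
  have hU1 : ∀ᶠ i in (U : Filter ℕ), k < i := hUtop (eventually_gt_atTop k)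
  have hU2 : ∀ᶠ i in (U : Filter ℕ), ∀ j, ∀ y : Fin d → ℝ, (∀ l, m / 2 ≤ y l) →
      (∀ l, y l ≤ ∑ l', 2 * w k l') → ordA (A k j) y ≤ ordA (A i j) y :=
    Filter.eventually_all.2 fun j => hk4 j (m / 2) (∑ l', 2 * w k l') (by positivity)
  obtain ⟨i, ⟨y, hyN, hy⟩, hi2, hi3, hi4, hki⟩ :=
    ((hk1 (w k) (hw k) (δ * m) hε).and (hk2.and (hk3.and (hU2.and hU1)))).exists
  have hyl : ∀ l, |w k l - y l| ≤ δ * w k l := by
    intro l
    have e1 : |w k l - y l| ≤ ‖w k - y‖ := norm_le_pi_norm (w k - y) l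
    have e2 : δ * m ≤ δ * w k l := mul_le_mul_of_nonneg_left (hml l) hδ0.le
    linarith
  have hlow : ∀ l, (1 - δ) * w k l ≤ y l := by
    intro l
    have := (abs_le.1 (hyl l)).2
    linarith
  have hup : ∀ l, y l ≤ (1 + δ) * w k l := by
    intro l
    have := (abs_le.1 (hyl l)).1
    linarith
  have hyη : ∀ l, m / 2 ≤ y l := by
    intro l
    have e1 := hlow l
    have e2 := hml l
    nlinarith [hw0 k l]
  have hyM : ∀ l, y l ≤ ∑ l', 2 * w k l' := by
    intro l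
    have e1 : 2 * w k l ≤ ∑ l', 2 * w k l' :=
      single_le_sum (f := fun l' => 2 * w k l') (fun l' _ => by linarith [hwn l']) (mem_univ l)
    have e2 := hup l
    nlinarith [hw0 k l]
  have hy0 : ∀ l, 0 < y l := fun l => lt_of_lt_of_le (by positivity) (hyη l)
  have hyn : ∀ l, 0 ≤ y l := fun l => (hy0 l).le
  -- comparison of the two functions at `y`
  have c1 : F (b i) (r i) (A i) y ≤ F (b k) (r k) (A k) y := by
    unfold F
    apply sub_le_sub
    · refine sum_le_sum fun l _ => mul_le_mul_of_nonneg_right ?_ (hyn l)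
      linarith [hi2 l]
    · refine sum_le_sum fun j _ => ?_
      exact mul_le_mul (hi3 j) (hi4 j y hyη hyM) (ordA_nonneg (hA k j) hyn)
        ((hr0 k j).trans (hi3 j))
  have c2 : F (b k) (r k) (A k) y ≤ (1 + δ) * P - (1 - δ) * R := by
    unfold F
    apply sub_le_sub
    · rw [hP, mul_sum]
      refine sum_le_sum fun l _ => ?_
      have e1 := mul_le_mul_of_nonneg_left (hup l) (by linarith [hb1 k l] : 0 ≤ 1 - b k l)
      linarith
    · rw [hR, mul_sum]
      refine sum_le_sum fun j _ => ?_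
      have e1 : (1 - δ) * ordA (A k j) (w k) ≤ ordA (A k j) y := by
        apply le_ordA (hA k j)
        intro a ha
        have e2 := ordA_le hwn ha le_rfl
        have e3 : (1 - δ) * ∑ l, (a l : ℝ) * w k l ≤ ∑ l, (a l : ℝ) * y l := by
          rw [mul_sum]
          refine sum_le_sum fun l _ => ?_
          have e4 := mul_le_mul_of_nonneg_left (hlow l) (Nat.cast_nonneg (α := ℝ) (a l))
          linarith
        have e5 := mul_le_mul_of_nonneg_left e2 (by linarith : (0 : ℝ) ≤ 1 - δ)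
        linarith
      have e6 := mul_le_mul_of_nonneg_left e1 (hr0 k j)
      linarith
  have c3 := hμ i y hyN hy0
  have c4 := hc k i hki
  linarith

/-- The data of a simplicial cone with a coset. -/
def DatD (S S' : Set ℝ) (o d J : ℕ) (μ c : ℝ) : Prop :=
  ∃ (L : AddSubgroup (Fin d → ℝ)) (z : Fin d → ℝ) (b : Fin d → ℝ) (r : Fin J → ℝ)
    (A : Fin J → Set (Fin d → ℕ)),
    (∀ i, Pi.single i 1 ∈ L) ∧ (o : ℝ) • z ∈ L ∧ (∀ i, b i ∈ S ∧ b i ≤ 1) ∧
    (∀ j, r j ∈ S' ∧ 0 ≤ r j ∧ (A j).Nonempty) ∧ (∀ i, 0 < z i) ∧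
    F b r A z < c ∧ ∀ y, y - z ∈ L → (∀ i, 0 < y i) → μ ≤ F b r A y

theorem core_datD {S S' : Set ℝ} (hS : S.IsWF) (hS' : S'.IsWF) {o d J : ℕ} (ho : 0 < o)
    (μ c : ℕ → ℝ) (hc : ∀ k i, k < i → c k ≤ μ i)
    (h : ∀ k, DatD S S' o d J (μ k) (c k)) : False := by
  choose L z b r A hL hz hb hr hz0 hzc hμ using h
  refine coreD hS hS' (fun k => {y | y - z k ∈ L k}) b r A z μ c ?_ (fun k i => (hb k i).1)
    (fun k i => (hb k i).2) (fun k j => (hr k j).2.1) (fun k j => (hr k j).1)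
    (fun k j => (hr k j).2.2) ?_ hz0 hzc (fun k y hy => hμ k y hy) hc
  · exact recurD (Filter.hyperfilter ℕ) ho L z hL hz
  · intro k
    show z k - z k ∈ L k
    rw [sub_self]
    exact (L k).zero_mem

/-- The same with bounded `d` and `J` and a shift by one of finitely many constants. -/
theorem core_bddD {S S' : Set ℝ} (hS : S.IsWF) (hS' : S'.IsWF) {o n K M : ℕ} (ho : 0 < o)
    (q : ℕ → ℝ) (μ c : ℕ → ℝ) (hc : ∀ k i, k < i → c k ≤ μ i)
    (h : ∀ k, ∃ d ≤ n, ∃ J ≤ K, ∃ s ≤ M, DatD S S' o d J (μ k - q s) (c k - q s)) : False := by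
  have h1 : ∀ᶠ k in (Filter.hyperfilter ℕ : Filter ℕ),
      ∃ p : Fin (n + 1) × Fin (K + 1) × Fin (M + 1),
      DatD S S' o p.1 p.2.1 (μ k - q p.2.2) (c k - q p.2.2) := by
    refine Eventually.of_forall fun k => ?_
    obtain ⟨d, hd, J, hJ, s, hs, hD⟩ := h k
    exact ⟨(⟨d, by omega⟩, ⟨J, by omega⟩, ⟨s, by omega⟩), hD⟩
  obtain ⟨p, hp⟩ := Ultrafilter.eventually_exists_iff.1 h1
  have h2 : ∃ᶠ k in atTop, DatD S S' o p.1 p.2.1 (μ k - q p.2.2) (c k - q p.2.2) :=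
    hp.frequently.filter_mono Nat.hyperfilter_le_atTop
  obtain ⟨φ, hφ, hD⟩ := extraction_of_frequently_atTop h2
  exact core_datD hS hS' ho (fun k => μ (φ k) - q p.2.2) (fun k => c (φ k) - q p.2.2)
    (fun k i hki => sub_le_sub_right (hc _ _ (hφ hki)) _) hD

end MldQ
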