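import Pool.Agent.MldAcc.Defs

/-!
# MP_fa3f7f_ag: quotients of toric triples by finite groups and their minimal log discrepancies

`MldAcc.ToricTriple n` is a toric triple `(x ∈ X, B, ∏_j 𝔞_j^{r_j})`: `X` is the affine toric
variety of an arbitrary (not necessarily simplicial) cone `σ ⊂ ℝ^n` with lattice `N`, `x` its torus
fixed point, `B` a torus invariant boundary, `𝔞_j` monomial ideals. Here finite groups of
automorphisms of the triple are added. They may permute the coordinates of the torus.
-/

namespace MldQ

open MldGap MldAcc

noncomputable section

variable {n : ℕ}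

/-- The pair `(φ, w)` stands for the automorphism `t ↦ exp (2 π i w) φ(t)` of the torus
`N ⊗ ℂ^* = ℂ^n / N`, where `φ` is an automorphism of the lattice `N` (extended to `ℝ^n`). It can be
read as the affine map `x ↦ φ x + w` of `ℝ^n`. -/
abbrev Aff (n : ℕ) : Type := ((Fin n → ℝ) →ₗ[ℝ] (Fin n → ℝ)) × (Fin n → ℝ)

/-- The `k`-th power of the affine map `x ↦ φ x + w` is `x ↦ φ^k x + ∑_{j < k} φ^j w`. -/
def trans (g : Aff n) (k : ℕ) : Fin n → ℝ := ∑ j ∈ Finset.range k, (g.1 ^ j) g.2

/-- A toric triple `(x ∈ X, B, ∏_j 𝔞_j^{r_j})` with a set `G` of automorphisms of finite order,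
closed under powers. `G` is given by its preimage `Γ` in the affine maps of `ℝ^n`, which is
invariant under addition of lattice vectors to the translation part.

Every finite group of automorphisms of the triple which normalises the torus is of this form: after
a conjugation by an element of the torus it lies in `(N ⊗ ℝ / N) ⋊ Aut N` (then `Γ` is a group, a
crystallographic group if `n > 0`). In general every element of a finite group `G` of automorphisms
of the triple is conjugate to an element which normalises the torus (a maximal torus of the
automorphism group of the triple), and one takes for `Γ` the set of these elements and of their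
powers. -/
structure ToricQuotient (n : ℕ) extends ToricTriple n where
  /-- the elements of the group -/
  Γ : Set (Aff n)
  /-- the identity -/
  one_mem : ((1, 0) : Aff n) ∈ Γ
  /-- the lattice acts trivially on the torus -/
  add_mem : ∀ g ∈ Γ, ∀ v ∈ N, ((g.1, g.2 + v) : Aff n) ∈ Γ
  /-- the set is closed under powers -/
  pow_mem : ∀ g ∈ Γ, ∀ k : ℕ, ((g.1 ^ k, trans g k) : Aff n) ∈ Γ
  /-- the elements have finite order modulo `N` -/
  finite_order : ∀ g ∈ Γ, ∃ k : ℕ, 0 < k ∧ g.1 ^ k = 1 ∧ trans g k ∈ N
  /-- the linear parts preserve the lattice -/
  map_lattice : ∀ g ∈ Γ, ∀ v ∈ N, g.1 v ∈ N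
  /-- they permute the rays, and preserve the coefficients of `B` -/
  map_ray : ∀ g ∈ Γ, ∀ i, ∃ i', g.1 (ray i) = ray i' ∧ b i' = b i
  /-- they permute the ideals with their exponents -/
  map_ideal : ∀ g ∈ Γ, ∃ π : Equiv.Perm J, ∀ j, r (π j) = r j ∧
    ∀ m, m ∈ A j ↔ m ∘ₗ g.1 ∈ A (π j)

/-- `u` is the shift of the affine map `g`: its intrinsic translation vector. It is characterised by
`g^k = ` translation by `k u`, for one and hence for all `k > 0` such that the linear part of `g^k`
is the identity; `u` is the projection of the translation part `w` to the fixed space of the linear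
part `φ`. -/
def IsShift (g : Aff n) (u : Fin n → ℝ) : Prop :=
  ∃ k : ℕ, 0 < k ∧ g.1 ^ k = 1 ∧ (k : ℝ) • u = trans g k

/-- the codimension of the fixed space of the linear part: the rank of `φ - 1` -/
def codim (g : Aff n) : ℕ := Module.finrank ℝ (LinearMap.range (g.1 - 1))

/-- The minimal log discrepancy at the image of `x` of the quotient triple `(X, B, ∏_j 𝔞_j^{r_j}) / G`
(crepant quotient: `K_X + B` is the pullback of `K + B'`, so `B'` contains the ramification with
standard coefficients; `B' = 0` if `B = 0` and `G` contains no reflections; the ideals descend with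
their norms): the infimum over the elements `g` of `G` and their lifts to `Γ` with shift `u` in the
interior of the cone of `codim / 2 + (log discrepancy of the toric valuation u)`.

Explanation: for a divisor `E` over `X` with inertia group of order `e` the log discrepancy of its
image is `a(E) / e`. On an equivariant toric resolution, in coordinates which diagonalise a
generator `g` of the inertia group, `E` has a weight vector `e θ` with `exp (2 π i θ)` the
eigenvalues of `g`, `θ > 0`; the monomials see only `u`, and the non-trivial eigenvalues of `φ`,
which come in conjugate pairs or are `-1`, contribute `codim / 2`. For `X = ℂ^n` this is the sum of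
all `θ`, the formula of Reid and Tai. -/
def ToricQuotient.mldQ (Q : ToricQuotient n) : ℝ :=
  sInf {a : ℝ | ∃ g ∈ Q.Γ, ∃ u, IsShift g u ∧ u ∈ interior (coneOf Q.ray) ∧
    (codim g : ℝ) / 2 + Q.disc u = a}

/-- The minimal log discrepancies of the quotients of the `n`-dimensional log canonical toric
triples with coefficients and exponents in `S`. -/
def mldQSet (n : ℕ) (S : Set ℝ) : Set ℝ :=
  {x | ∃ Q : ToricQuotient n, Q.LC ∧ Q.CoeffIn S ∧ Q.mldQ = x}

end

end MldQ
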