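import Pool.Agent.MldQ.Main

/-!
# Toric triples are quotients by the trivial group
-/

namespace MldQ

open MldGap MldAcc Finset

noncomputable section

variable {n : ℕ}

/-- the trivial group -/
def ofTriple (T : ToricTriple n) : ToricQuotient n where
  toToricTriple := T
  Γ := {g | g.1 = 1 ∧ g.2 ∈ T.N}
  one_mem := ⟨rfl, T.N.zero_mem⟩
  add_mem := fun g hg v hv => ⟨hg.1, T.N.add_mem hg.2 hv⟩
  pow_mem := fun g hg k => by
    refine ⟨by rw [hg.1, one_pow], ?_⟩
    show ∑ j ∈ range k, (g.1 ^ j) g.2 ∈ T.N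
    refine T.N.sum_mem fun j _ => ?_
    rw [hg.1, one_pow]
    exact hg.2
  finite_order := fun g hg => by
    refine ⟨1, one_pos, by rw [hg.1, one_pow], ?_⟩
    show ∑ j ∈ range 1, (g.1 ^ j) g.2 ∈ T.N
    simpa using hg.2
  map_lattice := fun g hg v hv => by
    rw [hg.1]
    exact hv
  map_ray := fun g hg i => ⟨i, by rw [hg.1]; rfl, rfl⟩
  map_ideal := fun g hg => ⟨1, fun j => ⟨rfl, fun m => by
    rw [hg.1]
    have h : m ∘ₗ (1 : (Fin n → ℝ) →ₗ[ℝ] (Fin n → ℝ)) = m := by
      ext x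
      rfl
    rw [h]
    rfl⟩⟩

theorem mldQ_ofTriple (T : ToricTriple n) : (ofTriple T).mldQ = T.mld := by
  unfold ToricQuotient.mldQ ToricTriple.mld
  congr 1
  ext a
  constructor
  · rintro ⟨g, hg, u, hu, hui, rfl⟩
    have h1 : g.1 = 1 := hg.1
    have h2 : u = g.2 := by
      have h3 := hu.eq (o := 1) (by rw [h1, one_pow])
      have h4 : trans g 1 = g.2 := by simp [trans]
      rw [h4] at h3
      simpa using h3
    have h3 : codim g = 0 := by
      unfold codim
      rw [h1, sub_self]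
      simp
    refine ⟨u, ⟨by rw [h2]; exact hg.2, hui⟩, ?_⟩
    rw [h3]
    simp only [Nat.cast_zero, zero_div, zero_add]
    rfl
  · rintro ⟨v, ⟨hv, hvi⟩, rfl⟩
    refine ⟨((1, v) : Aff n), ⟨rfl, hv⟩, v, ⟨1, one_pos, one_pow 1, by simp [trans]⟩, hvi, ?_⟩
    have h3 : codim ((1, v) : Aff n) = 0 := by
      unfold codim
      simp
    rw [h3]
    simp only [Nat.cast_zero, zero_div, zero_add]
    rfl

/-- The minimal log discrepancies of toric triples are among those of quotients. -/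
theorem mldSet_subset (n : ℕ) (S : Set ℝ) : mldSet n S ⊆ mldQSet n S := by
  rintro x ⟨T, hLC, hT, rfl⟩
  exact ⟨ofTriple T, hLC, hT, mldQ_ofTriple T⟩

end

end MldQ
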